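import Pool.Agent.helper48.AN.SpecD

/-! Module an:DC: chain rules for the universal deformation. -/

namespace AN

open scoped Classical
open MvPowerSeries (constantCoeff coeff)

noncomputable section

variable {k : Type} [Field k] {N : ℕ}

theorem DC_coeff_ddK (α : Fin N →₀ ℕ) (x : KK k N) : coeff α (ddK x) = dd (coeff α x) := rfl

theorem DC_ddK_add (x y : KK k N) : ddK (x + y) = ddK x + ddK y := by
  ext1 α
  rw [DC_coeff_ddK, map_add, map_add, map_add]
  rfl

theorem DC_ddK_mul (x y : KK k N) : ddK (x * y) = ddK x * y + x * ddK y := by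
  ext1 α
  rw [DC_coeff_ddK, map_add, MvPowerSeries.coeff_mul, MvPowerSeries.coeff_mul,
    MvPowerSeries.coeff_mul, map_sum, ← Finset.sum_add_distrib]
  exact Finset.sum_congr rfl fun q _ => dd_mul _ _

theorem DC_ddK_zero : ddK (0 : KK k N) = 0 := by
  ext1 α
  rw [DC_coeff_ddK, map_zero, map_zero]

theorem DC_ddK_one : ddK (1 : KK k N) = 0 := by
  have h := DC_ddK_mul (1 : KK k N) 1
  rw [mul_one, one_mul, mul_one] at h
  have h2 : ddK (1 : KK k N) + 0 = ddK (1 : KK k N) + ddK (1 : KK k N) := by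
    rw [add_zero]; exact h
  exact (add_left_cancel h2).symm

theorem DC_ddK_pow (x : KK k N) (j : ℕ) : ddK (x ^ j) = (j : KK k N) * x ^ (j - 1) * ddK x := by
  induction j with
  | zero => rw [pow_zero, DC_ddK_one, Nat.cast_zero, zero_mul, zero_mul]
  | succ j ih =>
    rw [pow_succ, DC_ddK_mul, ih, Nat.add_sub_cancel]
    rcases Nat.eq_zero_or_pos j with hj | hj
    · subst hj
      simp
    · obtain ⟨m, rfl⟩ : ∃ m, j = m + 1 := ⟨j - 1, by omega⟩
      rw [Nat.add_sub_cancel, pow_succ]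
      push_cast
      ring

theorem DC_ddK_sum {ι : Type} (s : Finset ι) (f : ι → KK k N) :
    ddK (∑ i ∈ s, f i) = ∑ i ∈ s, ddK (f i) := by
  induction s using Finset.induction_on with
  | empty => simp [DC_ddK_zero]
  | insert a s ha ih => rw [Finset.sum_insert ha, Finset.sum_insert ha, DC_ddK_add, ih]

/-- coefficientwise Hasse derivative -/
def DC_hK (j : ℕ) (x : KK k N) : KK k N := fun α => hD j (coeff α x)

theorem DC_coeff_hK (j : ℕ) (α : Fin N →₀ ℕ) (x : KK k N) :
    coeff α (DC_hK j x) = hD j (coeff α x) := rfl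

/-- partial sums of the Taylor formula -/
def DC_S (h : Fin N → LS k) (M : ℕ) (x : KK k N) : KK k N :=
  ∑ j ∈ Finset.range M, DC_hK j x * del h ^ j

theorem DC_phi {h : Fin N → LS k}
    (hδ : ∀ (α : Fin N →₀ ℕ) (j : ℕ), α.degree < j → coeff α (del h ^ j) = 0)
    {M : ℕ} {α : Fin N →₀ ℕ} (hM : α.degree < M) (x : KK k N) :
    coeff α (Phi h x) = coeff α (DC_S h M x) := by
  unfold DC_S
  rw [map_sum]
  have e : ∀ j ∈ Finset.range M, coeff α (DC_hK j x * del h ^ j) =
      ∑ q ∈ Finset.HasAntidiagonal.antidiagonal α, hD j (coeff q.1 x) * coeff q.2 (del h ^ j) :=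
    fun j _ => by rw [MvPowerSeries.coeff_mul]; rfl
  rw [Finset.sum_congr rfl e, Finset.sum_comm]
  show ∑ q ∈ Finset.HasAntidiagonal.antidiagonal α, ∑ j ∈ Finset.range (q.2.degree + 1),
    hD j (coeff q.1 x) * coeff q.2 (del h ^ j) = _
  refine Finset.sum_congr rfl fun q hq => ?_
  have hq' : q.2.degree ≤ α.degree := by
    rw [← Finset.HasAntidiagonal.mem_antidiagonal.1 hq, map_add]
    omega
  refine Finset.sum_subset (fun j hj => ?_) fun j _ hj => ?_
  · rw [Finset.mem_range] at hj ⊢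
    omega
  · rw [Finset.mem_range] at hj
    rw [hδ q.2 j (by omega), mul_zero]

theorem DC_phi_mul {h : Fin N → LS k}
    (hδ : ∀ (α : Fin N →₀ ℕ) (j : ℕ), α.degree < j → coeff α (del h ^ j) = 0)
    {M : ℕ} {α : Fin N →₀ ℕ} (hM : α.degree < M) (x z : KK k N) :
    coeff α (Phi h x * z) = coeff α (DC_S h M x * z) := by
  rw [MvPowerSeries.coeff_mul, MvPowerSeries.coeff_mul]
  refine Finset.sum_congr rfl fun q hq => ?_
  have hq' : q.1.degree ≤ α.degree := by
    rw [← Finset.HasAntidiagonal.mem_antidiagonal.1 hq, map_add]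
    omega
  rw [DC_phi hδ (lt_of_le_of_lt hq' hM)]

theorem DC_shift (h6 : ∀ (j : ℕ) (f : LS k), hD j (dd f) = ((j : LS k) + 1) * hD (j + 1) f)
    (j : ℕ) (x : KK k N) : DC_hK (j + 1) x * ((j + 1 : ℕ) : KK k N) = DC_hK j (ddK x) := by
  ext1 α
  rw [DC_coeff_hK, DC_coeff_ddK, h6, mul_comm]
  have e : ((j + 1 : ℕ) : KK k N) = MvPowerSeries.C ((j : LS k) + 1) := by
    push_cast
    rw [map_add, map_one, map_natCast]
  rw [e, MvPowerSeries.coeff_C_mul, DC_coeff_hK]

theorem DC_pow_sum (h6 : ∀ (j : ℕ) (f : LS k), hD j (dd f) = ((j : LS k) + 1) * hD (j + 1) f)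
    (h : Fin N → LS k) (m : ℕ) (x w : KK k N) :
    ∑ j ∈ Finset.range (m + 1), DC_hK j x * ((j : KK k N) * del h ^ (j - 1) * w) =
      DC_S h m (ddK x) * w := by
  rw [Finset.sum_range_succ']
  simp only [Nat.cast_zero, zero_mul, mul_zero, add_zero, Nat.add_sub_cancel]
  unfold DC_S
  rw [Finset.sum_mul]
  refine Finset.sum_congr rfl fun j _ => ?_
  rw [← DC_shift h6]
  ring

theorem DC (hDA : DA_stmt) (hDB : DB_stmt) : DC_stmt := by
  intro k _ N h
  obtain ⟨-, hadd, hC, -, h5, h6, -⟩ := hDA k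
  have hδ := (hDB k N h).2.2.2.2
  refine ⟨DC_ddK_mul, fun x => ?_, fun i x => ?_⟩
  · ext1 α
    rw [DC_coeff_ddK, DC_phi hδ (show α.degree < α.degree + 1 + 1 by omega), ← DC_coeff_ddK,
      mul_add, mul_one, map_add, DC_phi hδ (show α.degree < α.degree + 1 + 1 by omega),
      DC_phi_mul hδ (show α.degree < α.degree + 1 by omega), ← map_add]
    congr 1
    have e1 : ddK (DC_S h (α.degree + 1 + 1) x) =
        ∑ j ∈ Finset.range (α.degree + 1 + 1), DC_hK j (ddK x) * del h ^ j +
        ∑ j ∈ Finset.range (α.degree + 1 + 1),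
          DC_hK j x * ((j : KK k N) * del h ^ (j - 1) * ddK (del h)) := by
      unfold DC_S
      rw [DC_ddK_sum, ← Finset.sum_add_distrib]
      refine Finset.sum_congr rfl fun j _ => ?_
      rw [DC_ddK_mul, DC_ddK_pow]
      congr 2
      ext1 β
      rw [DC_coeff_ddK, DC_coeff_hK, DC_coeff_hK, DC_coeff_ddK, h5, h6]
    rw [e1, DC_pow_sum h6]
    rfl
  · have hpd : MvPowerSeries.pderiv (LS k) i (del h) = MvPowerSeries.C (h i) := by
      unfold del
      rw [map_sum]
      rw [Finset.sum_eq_single i]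
      · rw [Derivation.leibniz, MvPowerSeries.pderiv_C, MvPowerSeries.pderiv_X_self]
        simp
      · intro j _ hj
        rw [Derivation.leibniz, MvPowerSeries.pderiv_C, MvPowerSeries.pderiv_X_of_ne hj]
        simp
      · intro hi
        exact absurd (Finset.mem_univ i) hi
    ext1 α
    have hdeg : (α + Finsupp.single i 1).degree < α.degree + 1 + 1 := by
      rw [map_add, Finsupp.degree_single]
      omega
    rw [MvPowerSeries.coeff_pderiv, DC_phi hδ hdeg, ← MvPowerSeries.coeff_pderiv, map_add,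
      DC_phi hδ (show α.degree < α.degree + 1 + 1 by omega),
      DC_phi_mul hδ (show α.degree < α.degree + 1 by omega), ← map_add]
    congr 1
    have e1 : MvPowerSeries.pderiv (LS k) i (DC_S h (α.degree + 1 + 1) x) =
        ∑ j ∈ Finset.range (α.degree + 1 + 1),
          DC_hK j (MvPowerSeries.pderiv (LS k) i x) * del h ^ j +
        ∑ j ∈ Finset.range (α.degree + 1 + 1),
          DC_hK j x * ((j : KK k N) * del h ^ (j - 1) * MvPowerSeries.C (h i)) := by
      unfold DC_S
      rw [map_sum, ← Finset.sum_add_distrib]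
      refine Finset.sum_congr rfl fun j _ => ?_
      rw [Derivation.leibniz, MvPowerSeries.pderiv_pow, hpd, smul_eq_mul, smul_eq_mul, add_comm]
      congr 1
      rw [mul_comm]
      congr 1
      ext1 β
      rw [MvPowerSeries.coeff_pderiv, DC_coeff_hK, DC_coeff_hK, MvPowerSeries.coeff_pderiv]
      have e2 : ((β i : LS k) + 1) = LS.C ((β i : k) + 1) := by
        rw [map_add, map_one, map_natCast]
      rw [e2, mul_comm, ← hC, mul_comm]
    rw [e1, DC_pow_sum h6]
    rfl

end

end AN
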