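import Pool.Agent.helper48.AN.SpecF

/-! Module an:FD: differentials regular outside `P₀` are generated by the `f dh`. -/

namespace AN

open scoped Classical
open Pool.Agent.helper53.AU

noncomputable section

section
variable {k F : Type} [Field k] [Field F] [Algebra k F]

/-- the span of the `f dh` -/
def FD_M (P₀ : Place k F) (D : Derivation k F F) : Submodule k F :=
  Submodule.span k {x : F | ∃ f ∈ Reg P₀, ∃ h ∈ Reg P₀, x = f * D h}

theorem FD_mul {P₀ : Place k F} {D : Derivation k F F} {a x : F} (ha : a ∈ Reg P₀)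
    (hx : x ∈ FD_M P₀ D) : a * x ∈ FD_M P₀ D := by
  unfold FD_M at hx ⊢
  induction hx using Submodule.span_induction with
  | mem x hx =>
    obtain ⟨f, hf, h, hh, rfl⟩ := hx
    exact Submodule.subset_span ⟨a * f, mul_mem ha hf, h, hh, by ring⟩
  | zero => rw [mul_zero]; exact Submodule.zero_mem _
  | add x y _ _ hx hy => rw [mul_add]; exact Submodule.add_mem _ hx hy
  | smul c x _ hx => rw [mul_smul_comm]; exact Submodule.smul_mem _ _ hx

/-- the ideal of the `a ∈ Reg P₀` with `a w` in the span -/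
def FD_I (P₀ : Place k F) (D : Derivation k F F) (w a : F) : Prop :=
  a ∈ Reg P₀ ∧ a * w ∈ FD_M P₀ D

theorem FD_I_add {P₀ : Place k F} {D : Derivation k F F} {w a b : F} (ha : FD_I P₀ D w a)
    (hb : FD_I P₀ D w b) : FD_I P₀ D w (a + b) :=
  ⟨add_mem ha.1 hb.1, by rw [add_mul]; exact Submodule.add_mem _ ha.2 hb.2⟩

theorem FD_I_mul {P₀ : Place k F} {D : Derivation k F F} {w a b : F} (ha : a ∈ Reg P₀)
    (hb : FD_I P₀ D w b) : FD_I P₀ D w (a * b) :=
  ⟨mul_mem ha hb.1, by rw [mul_assoc]; exact FD_mul ha hb.2⟩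

theorem FD_I_sum {P₀ : Place k F} {D : Derivation k F F} {w : F} {ι : Type} (s : Finset ι)
    (f : ι → F) (h : ∀ i ∈ s, FD_I P₀ D w (f i)) : FD_I P₀ D w (∑ i ∈ s, f i) := by
  induction s using Finset.induction_on with
  | empty =>
    rw [Finset.sum_empty]
    exact ⟨zero_mem _, by rw [zero_mul]; exact Submodule.zero_mem _⟩
  | insert a s ha ih =>
    rw [Finset.sum_insert ha]
    exact FD_I_add (h a (Finset.mem_insert_self a s))
      (ih fun i hi => h i (Finset.mem_insert_of_mem hi))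

/-- `k`-algebra elements which are units at every point generate the unit ideal -/
theorem FD_unit [IsAlgClosed k] (hF : IsFF k F) (P₀ : Place k F) (D : Derivation k F F) (w : F)
    (hP : ∃ P : Place k F, P ≠ P₀)
    (h : ∀ P : Place k F, P ≠ P₀ → ∃ a, FD_I P₀ D w a ∧ a ≠ 0 ∧ P.ord a = 0) :
    FD_I P₀ D w 1 := by
  obtain ⟨P₁, hP₁⟩ := hP
  obtain ⟨a₀, hI₀, ha₀, -⟩ := h P₁ hP₁
  have hfin := aQV4 k F hF a₀ ha₀
  set Z : Finset (Place k F) := hfin.toFinset.erase P₀ with hZ
  have hZ0 : ∀ Q ∈ Z, Q ≠ P₀ := fun Q hQ => Finset.ne_of_mem_erase hQ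
  have hZ1 : ∀ Q : Place k F, Q ≠ P₀ → Q ∉ Z → Q.ord a₀ = 0 := by
    intro Q hQ hQZ
    by_contra hne
    exact hQZ (Finset.mem_erase.2 ⟨hQ, hfin.mem_toFinset.2 hne⟩)
  -- a bound for the orders
  obtain ⟨N, hN⟩ : ∃ N : ℕ, ∀ Q ∈ Z, Q.ord a₀ ≤ N := by
    refine ⟨∑ Q ∈ Z, (Q.ord a₀).natAbs, fun Q hQ => ?_⟩
    have h1 : (Q.ord a₀).natAbs ≤ ∑ Q ∈ Z, (Q.ord a₀).natAbs :=
      Finset.single_le_sum (f := fun Q : Place k F => (Q.ord a₀).natAbs)
        (fun _ _ => Nat.zero_le _) hQ
    omega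
  have hA : ∀ Q : Place k F, ∃ a, Q ∈ Z → FD_I P₀ D w a ∧ a ≠ 0 ∧ Q.ord a = 0 := by
    intro Q
    by_cases hQ : Q ∈ Z
    · obtain ⟨a, ha⟩ := h Q (hZ0 Q hQ)
      exact ⟨a, fun _ => ha⟩
    · exact ⟨0, fun h => absurd h hQ⟩
  choose A hA using hA
  have hB : ∀ Q : Place k F, ∃ b, Q ∈ Z → b ∈ Reg P₀ ∧
      ∀ Q' ∈ Z, Q'.Ge N (b - if Q' = Q then (A Q)⁻¹ else 0) := by
    intro Q
    by_cases hQ : Q ∈ Z
    · obtain ⟨-, hA1, hA2⟩ := hA Q hQ
      obtain ⟨b, hb, hb'⟩ := aQR4 k F hF P₀ Z N (fun Q' => if Q' = Q then (A Q)⁻¹ else 0)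
        (fun h0 => hZ0 P₀ h0 rfl) (fun Q' hQ' => by
          by_cases hQQ : Q' = Q
          · subst hQQ
            simp only [if_true]
            right
            rw [Q'.ord_inv hA1, hA2]
            simp
          · simp only [if_neg hQQ]
            exact Q'.ge_zero _)
      exact ⟨b, fun _ => ⟨hb, hb'⟩⟩
    · exact ⟨0, fun h => absurd h hQ⟩
  choose B hB using hB
  set a : F := ∑ Q ∈ Z, B Q * A Q with ha
  have haI : FD_I P₀ D w a := FD_I_sum Z _ fun Q hQ => FD_I_mul (hB Q hQ).1 (hA Q hQ).1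
  have hge : ∀ Q ∈ Z, Q.Ge N (1 - a) := by
    intro Q hQ
    obtain ⟨-, hA1, hA2⟩ := hA Q hQ
    rw [ha, ← Finset.add_sum_erase Z _ hQ]
    have e : (1 : F) - (B Q * A Q + ∑ x ∈ Z.erase Q, B x * A x) =
        -(A Q * (B Q - (A Q)⁻¹)) - ∑ x ∈ Z.erase Q, B x * A x := by
      rw [mul_sub, mul_inv_cancel₀ hA1]
      ring
    rw [e]
    refine Place.Ge.sub (Place.Ge.neg ?_) (Place.Ge.sum _ _ fun x hx => ?_)
    · have h1 := (hB Q hQ).2 Q hQ
      rw [if_pos rfl] at h1
      have h2 : Q.Ge 0 (A Q) := Or.inr (by rw [hA2])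
      simpa using h2.mul h1
    · have hxQ : x ≠ Q := Finset.ne_of_mem_erase hx
      have hxZ : x ∈ Z := Finset.mem_of_mem_erase hx
      have h1 := (hB x hxZ).2 Q hQ
      rw [if_neg (Ne.symm hxQ), sub_zero] at h1
      have h2 : Q.Ge 0 (A x) := (hA x hxZ).1.1 Q (hZ0 Q hQ)
      simpa using h1.mul h2
  have hc : (1 - a) / a₀ ∈ Reg P₀ := by
    intro Q hQ
    by_cases h1 : (1 : F) - a = 0
    · rw [h1, zero_div]
      exact Q.ge_zero _
    right
    rw [Q.ord_div h1 ha₀]
    by_cases hQZ : Q ∈ Z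
    · have h2 := (hge Q hQZ).le h1
      have h3 := hN Q hQZ
      omega
    · rw [hZ1 Q hQ hQZ, sub_zero]
      have h2 : Q.Ge 0 (1 - a) := (sub_mem (one_mem (Reg P₀)) haI.1 : 1 - a ∈ Reg P₀) Q hQ
      exact h2.le h1
  have e : (1 : F) = a + (1 - a) / a₀ * a₀ := by
    rw [div_mul_cancel₀ _ ha₀]
    ring
  rw [e]
  exact FD_I_add haI (FD_I_mul hc hI₀)

end

theorem FD : FD_stmt := by
  intro k F _ _ _ _ hF P₀ D hD w
  constructor
  · intro hw
    change w ∈ FD_M P₀ D
    by_cases hP : ∃ P : Place k F, P ≠ P₀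
    · have h1 := FD_unit hF P₀ D w hP fun P hPP => ?_
      · have := h1.2
        rwa [one_mul] at this
      -- a unit at `P`
      have hu := P.unif_spec
      obtain ⟨hDt, -, hge, -⟩ := aQK5 k F hF D hD P P.unif hu
      obtain ⟨h, hh, hh'⟩ := aQR4 k F hF P₀ {P} 2 (fun _ => P.unif)
        (by rw [Finset.mem_singleton]; exact fun h => hPP h.symm)
        (fun Q hQ => by
          rw [Finset.mem_singleton] at hQ
          subst hQ
          right
          rw [hu.2]
          norm_num)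
      have h2 : P.Ge 2 (h - P.unif) := hh' P (Finset.mem_singleton_self P)
      have h3 := hge 2 _ h2
      have h4 : D h = D P.unif + D (h - P.unif) := by
        rw [← map_add]
        congr 1
        ring
      obtain ⟨h5, h6⟩ := Place.ord_add_eq (P := P) hDt
        (h3.mono (by omega : P.ord (D P.unif) + 1 ≤ 2 - 1 + P.ord (D P.unif)))
      rw [← h4] at h5 h6
      by_cases hw0 : w = 0
      · refine ⟨1, ⟨one_mem _, ?_⟩, one_ne_zero, P.ord_one⟩
        rw [hw0, mul_zero]
        exact Submodule.zero_mem _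
      have hv0 : w / D h ≠ 0 := div_ne_zero hw0 h5
      have hv : 0 ≤ P.ord (w / D h) := by
        rw [P.ord_div hw0 h5, h6]
        have := (hw P hPP).le hw0
        omega
      have hfin := aQV4 k F hF _ hv0
      set S : Finset (Place k F) := insert P
        (hfin.toFinset.filter fun Q => Q ≠ P₀ ∧ Q.ord (w / D h) < 0) with hS
      have hPS : P₀ ∉ S := by
        rw [hS, Finset.mem_insert, Finset.mem_filter]
        rintro (h7 | h7)
        · exact hPP h7.symm
        · exact h7.2.1 rfl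
      obtain ⟨N, hN⟩ : ∃ N : ℕ, ∀ Q ∈ S, -Q.ord (w / D h) ≤ N := by
        refine ⟨∑ Q ∈ S, (Q.ord (w / D h)).natAbs, fun Q hQ => ?_⟩
        have h1 : (Q.ord (w / D h)).natAbs ≤ ∑ Q ∈ S, (Q.ord (w / D h)).natAbs :=
          Finset.single_le_sum (f := fun Q : Place k F => (Q.ord (w / D h)).natAbs)
            (fun _ _ => Nat.zero_le _) hQ
        omega
      obtain ⟨a, ha, ha'⟩ := aQR4 k F hF P₀ S (N + 1) (fun Q => if Q = P then 1 else 0) hPS
        (fun Q _ => by
          by_cases hQ : Q = P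
          · simp only [if_pos hQ]
            right
            rw [Q.ord_one]
          · simp only [if_neg hQ]
            exact Q.ge_zero _)
      have h7 := ha' P (Finset.mem_insert_self _ _)
      simp only [if_true] at h7
      obtain ⟨h8, h9⟩ := Place.ord_add_eq (P := P) (f := 1) (g := a - 1) one_ne_zero
        (by rw [P.ord_one]; exact h7.mono (by push_cast; omega))
      rw [P.ord_one] at h9
      have e1 : (1 : F) + (a - 1) = a := by ring
      rw [e1] at h8 h9
      refine ⟨a, ⟨ha, ?_⟩, h8, h9⟩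
      have e2 : a * w = (a * (w / D h)) * D h := by
        rw [mul_assoc, div_mul_cancel₀ _ h5]
      rw [e2]
      refine Submodule.subset_span ⟨a * (w / D h), ?_, h, hh, rfl⟩
      intro Q hQ
      by_cases hneg : Q.ord (w / D h) < 0
      · have hQP : Q ≠ P := by
          rintro rfl
          omega
        have hQS : Q ∈ S := by
          rw [hS, Finset.mem_insert, Finset.mem_filter]
          right
          refine ⟨hfin.mem_toFinset.2 ?_, hQ, hneg⟩
          show Q.ord (w / D h) ≠ 0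
          omega
        have h10 := ha' Q hQS
        rw [if_neg hQP, sub_zero] at h10
        have h11 := h10.mul (Q.ge_ord (w / D h))
        refine h11.mono ?_
        have := hN Q hQS
        push_cast
        omega
      · have h10 : Q.Ge 0 (w / D h) := Or.inr (not_lt.1 hneg)
        simpa using (ha Q hQ).mul h10
    · push Not at hP
      have hreg : ∀ f : F, f ∈ Reg P₀ := fun f P hPP => absurd (hP P) hPP
      obtain ⟨h, hh⟩ : ∃ h, D h ≠ 0 := by
        by_contra hcon
        push Not at hcon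
        exact hD (Derivation.ext hcon)
      refine Submodule.subset_span ⟨w / D h, hreg _, h, hreg _, ?_⟩
      rw [div_mul_cancel₀ _ hh]
  · intro hw P hP
    induction hw using Submodule.span_induction with
    | mem x hx =>
      obtain ⟨f, hf, h, hh, rfl⟩ := hx
      obtain ⟨c, hc⟩ := aQV1 k F hF P h (hh P hP)
      obtain ⟨-, -, hge, -⟩ := aQK5 k F hF D hD P P.unif P.unif_spec
      have h1 := hge 1 _ hc
      rw [map_sub, Derivation.map_algebraMap, sub_zero, sub_self, zero_add] at h1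
      simpa using (hf P hP).mul h1
    | zero => exact P.ge_zero _
    | add x y _ _ hx hy => exact hx.add hy
    | smul c x _ hx => exact hx.smul c

end

end AN
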