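import Pool.Agent.helper48.AN.SpecF

/-! Module an:FG1: dual form of Lang's theorem. -/

namespace AN

open scoped Classical

noncomputable section

section
variable {K : Type} [Field K] {g : ℕ}

/-- the `p⁻¹`-linear map `z ↦ (Hᵀ z)^(1/p)` -/
def FG1_G (r : K ≃+* K) (H : Matrix (Fin g) (Fin g) K) :
    (Fin g → K) →ₛₗ[(r : K →+* K)] (Fin g → K) where
  toFun z := fun i => r ((H.transpose.mulVec z) i)
  map_add' a b := by
    funext i
    rw [Matrix.mulVec_add]
    simp
  map_smul' c a := by
    funext i
    rw [Matrix.mulVec_smul]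
    simp

theorem FG1_G_apply (r : K ≃+* K) (H : Matrix (Fin g) (Fin g) K) (z : Fin g → K) (i : Fin g) :
    FG1_G r H z i = r ((H.transpose.mulVec z) i) := rfl

theorem FG1_iter (p : ℕ) (r : K ≃+* K) (hr : ∀ x, r (x ^ p) = x) (H : Matrix (Fin g) (Fin g) K)
    (n : ℕ) : ∀ (z : Fin g → K) (i : Fin g),
      ((FG1_G r H)^[n] z) i = (r^[n]) (((MN p H n).transpose.mulVec z) i) := by
  induction n with
  | zero =>
    intro z i
    show z i = ((1 : Matrix (Fin g) (Fin g) K).transpose.mulVec z) i
    rw [Matrix.transpose_one, Matrix.one_mulVec]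
  | succ n ih =>
    intro z i
    rw [Function.iterate_succ_apply, ih, Function.iterate_succ_apply]
    congr 1
    have h1 : (MN p H (n + 1)).transpose.mulVec z =
        (frM p (MN p H n)).transpose.mulVec (H.transpose.mulVec z) := by
      show (H * frM p (MN p H n)).transpose.mulVec z = _
      rw [Matrix.transpose_mul, Matrix.mulVec_mulVec]
    rw [h1]
    simp only [Matrix.mulVec, dotProduct]
    rw [map_sum]
    refine Finset.sum_congr rfl fun j _ => ?_
    rw [map_mul]
    show (MN p H n) j i * FG1_G r H z j = r ((MN p H n) j i ^ p) * _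
    rw [hr, FG1_G_apply]
    rfl

theorem FG1_MN_zero (p : ℕ) [Fact p.Prime] {H : Matrix (Fin g) (Fin g) K} {n : ℕ}
    (h : MN p H n = 0) (m : ℕ) : MN p H (n + m) = 0 := by
  induction m with
  | zero => exact h
  | succ m ih =>
    show H * frM p (MN p H (n + m)) = 0
    rw [ih]
    have : frM p (0 : Matrix (Fin g) (Fin g) K) = 0 := by
      ext i j
      show (0 : K) ^ p = 0
      exact zero_pow (Fact.out : p.Prime).ne_zero
    rw [this, mul_zero]

theorem FG1_MN_unit (p : ℕ) [Fact p.Prime] [CharP K p] {B : Matrix (Fin g) (Fin g) K}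
    (h : B.det ≠ 0) (n : ℕ) : (MN p B n).det ≠ 0 := by
  induction n with
  | zero =>
    show (1 : Matrix (Fin g) (Fin g) K).det ≠ 0
    rw [Matrix.det_one]
    exact one_ne_zero
  | succ n ih =>
    show (B * frM p (MN p B n)).det ≠ 0
    rw [Matrix.det_mul]
    refine mul_ne_zero h ?_
    have : (frM p (MN p B n)) = (frobenius K p).mapMatrix (MN p B n) := by
      ext i j
      rfl
    rw [this, ← RingHom.map_det]
    exact fun h0 => ih ((map_eq_zero (frobenius K p)).1 h0)

end

theorem FG1_rank {K : Type} [Field K] {g : ℕ} {M : Matrix (Fin g) (Fin g) K} (h : M.rank = 0) :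
    M = 0 := by
  unfold Matrix.rank at h
  have h1 : LinearMap.range M.mulVecLin = ⊥ := Submodule.finrank_eq_zero.1 h
  have h2 : M.mulVecLin = 0 := LinearMap.range_eq_bot.1 h1
  ext i j
  have h3 := congrFun (LinearMap.congr_fun h2 (Pi.single j 1)) i
  rw [Matrix.mulVecLin_apply, Matrix.mulVec_single_one] at h3
  exact h3

theorem FG1 (hPE : PE_stmt) (hPF : PF_stmt) : FG1_stmt := by
  intro p _ K _ _ _ g H hH
  set r : K ≃+* K := (frobeniusEquiv K p).symm with hrdef
  have hr : ∀ x, r (x ^ p) = x := fun x => frobeniusEquiv_symm_pow K p x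
  have hr' : ∀ x, r x ^ p = x := fun x => by
    apply r.injective
    rw [hr]
  -- the chain of images
  set G := FG1_G r H with hG
  have hUmap : ∀ n, ∀ w, w ∈ (Submodule.map G)^[n] ⊤ ↔ ∃ z, G^[n] z = w := by
    intro n
    induction n with
    | zero => intro w; simp
    | succ n ih =>
      intro w
      rw [Function.iterate_succ_apply', Submodule.mem_map]
      constructor
      · rintro ⟨y, hy, rfl⟩
        obtain ⟨z, rfl⟩ := (ih y).1 hy
        exact ⟨z, by rw [Function.iterate_succ_apply']⟩
      · rintro ⟨z, rfl⟩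
        exact ⟨G^[n] z, (ih _).2 ⟨z, rfl⟩, by rw [Function.iterate_succ_apply']⟩
  have hanti : ∀ n, (Submodule.map G)^[n + 1] ⊤ ≤ (Submodule.map G)^[n] ⊤ := by
    intro n w hw
    obtain ⟨z, rfl⟩ := (hUmap (n + 1) w).1 hw
    rw [Function.iterate_succ_apply]
    exact (hUmap n _).2 ⟨G z, rfl⟩
  let f : ℕ →o (Submodule K (Fin g → K))ᵒᵈ :=
    { toFun := fun n => OrderDual.toDual ((Submodule.map G)^[n] ⊤)
      monotone' := monotone_nat_of_le_succ fun n => hanti n }
  obtain ⟨n, hn⟩ := IsArtinian.monotone_stabilizes f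
  have hn' : ∀ m, n ≤ m → (Submodule.map G)^[n] ⊤ = (Submodule.map G)^[m] ⊤ :=
    fun m hm => OrderDual.toDual.injective (hn m hm)
  set U : Submodule K (Fin g → K) := (Submodule.map G)^[n] ⊤ with hU
  have hUU : Submodule.map G U = U := by
    have := hn' (n + 1) (Nat.le_succ n)
    rw [Function.iterate_succ_apply'] at this
    exact this.symm
  have hU0 : U ≠ ⊥ := by
    intro h0
    have h1 : ∀ z, G^[n + g] z = 0 := by
      intro z
      have h2 : G^[n + g] z ∈ U := by
        have h3 : G^[n + g] z ∈ (Submodule.map G)^[n + g] ⊤ := (hUmap _ _).2 ⟨z, rfl⟩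
        rwa [← hn' (n + g) (Nat.le_add_right _ _)] at h3
      rw [h0] at h2
      exact (Submodule.mem_bot K).1 h2
    have h2 : MN p H (n + g) = 0 := by
      ext i j
      have h3 := congrFun (h1 (Pi.single i 1)) j
      rw [hG, FG1_iter p r hr] at h3
      have h4 : r^[n + g] 0 = (0 : K) := by
        have : Function.IsFixedPt r 0 := map_zero r
        exact this.iterate _
      have h5 : Function.Injective (r^[n + g]) := r.injective.iterate _
      have h6 := h5 (h3.trans h4.symm)
      rw [Matrix.mulVec_single_one] at h6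
      exact h6
    have h3 := (hPF p K g H).2 (n + g) (Nat.le_add_left _ _)
    rw [h2, Matrix.rank_zero] at h3
    exact hH (FG1_rank h3.symm)
  -- a basis of `U` and preimages
  set d := Module.finrank K U with hd
  let b : Module.Basis (Fin d) K U := Module.finBasis K U
  have ha : ∀ i : Fin d, ∃ a : U, G (a : Fin g → K) = (b i : Fin g → K) := by
    intro i
    have h1 : (b i : Fin g → K) ∈ Submodule.map G U := by
      rw [hUU]
      exact (b i).2
    obtain ⟨y, hy, hy'⟩ := h1
    exact ⟨⟨y, hy⟩, hy'⟩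
  choose a ha using ha
  let B : Matrix (Fin d) (Fin d) K := Matrix.of fun j i => b.repr (a i) j
  have haB : ∀ i, a i = ∑ j, B j i • b j := fun i => (b.sum_repr (a i)).symm
  have hGsum : ∀ c : Fin d → K, G ((∑ i, c i • a i : U) : Fin g → K) =
      ((∑ i, r (c i) • b i : U) : Fin g → K) := by
    intro c
    rw [Submodule.coe_sum, Submodule.coe_sum, map_sum]
    refine Finset.sum_congr rfl fun i _ => ?_
    rw [Submodule.coe_smul, Submodule.coe_smul, LinearMap.map_smulₛₗ, ha]
    rfl
  have hsum : ∀ c : Fin d → K, ∑ i, c i • a i = ∑ j, (B.mulVec c) j • b j := by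
    intro c
    simp_rw [haB, Finset.smul_sum]
    rw [Finset.sum_comm]
    refine Finset.sum_congr rfl fun j _ => ?_
    simp only [Matrix.mulVec, dotProduct, Finset.sum_smul, smul_smul]
    refine Finset.sum_congr rfl fun i _ => ?_
    rw [mul_comm]
  have hdet : B.det ≠ 0 := by
    intro h0
    obtain ⟨c, hc, hc'⟩ := Matrix.exists_mulVec_eq_zero_iff.2 h0
    have h1 := hsum c
    rw [hc'] at h1
    simp only [Pi.zero_apply, zero_smul, Finset.sum_const_zero] at h1
    have h2 := hGsum c
    rw [h1] at h2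
    rw [Submodule.coe_zero, map_zero] at h2
    have h3 : ∑ i, r (c i) • b i = 0 := Subtype.ext h2.symm
    have h4 := Fintype.linearIndependent_iff.1 b.linearIndependent (fun i => r (c i)) h3
    apply hc
    funext i
    exact (map_eq_zero r).1 (h4 i)
  have hd0 : 0 < d := by
    rw [hd, Module.finrank_pos_iff]
    exact Submodule.nontrivial_iff_ne_bot.2 hU0
  have hMN : MN p B d ≠ 0 := by
    intro h0
    have h1 := FG1_MN_unit p hdet d
    rw [h0] at h1
    have : Nonempty (Fin d) := ⟨⟨0, hd0⟩⟩
    exact h1 Matrix.det_zero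
  obtain ⟨c, hc, hc'⟩ := hPE p K d B hMN
  refine ⟨((∑ i, c i • b i : U) : Fin g → K), ?_, ?_⟩
  · intro h0
    have h1 : ∑ i, c i • b i = 0 := Subtype.ext h0
    have h2 := Fintype.linearIndependent_iff.1 b.linearIndependent c h1
    exact hc (funext h2)
  · have h1 : G ((∑ i, c i • b i : U) : Fin g → K) = ((∑ i, c i • b i : U) : Fin g → K) := by
      have h2 : (∑ i, c i • b i : U) = ∑ i, (c i ^ p) • a i := by
        rw [hsum]
        refine Finset.sum_congr rfl fun j _ => ?_
        congr 1
        exact congrFun hc' j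
      rw [h2, hGsum]
      simp only [hr]
      rw [← h2]
    funext i
    have h2 := congrFun h1 i
    rw [hG, FG1_G_apply] at h2
    show (((∑ i, c i • b i : U) : Fin g → K) i) ^ p = _
    rw [← h2, hr']

end

end AN
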